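import Mathlib

/-! A linear isometry from `C(L)` into `C[0,1]` for compact metrizable `L`. -/

namespace Pool.Agent.P.MP_eef3c4_an

open MeasureTheory Set Filter Topology

noncomputable section

lemma exists_coords : ∃ φ : ℕ → C(unitInterval, ℝ), ∀ b : ℕ → Bool, ∃ t : unitInterval,
    ∀ n, φ n t = if b n then 1 else 0 := by
  let ι : (ℕ → Bool) → unitInterval := fun b =>
    ⟨(cantorSetHomeomorphNatToBool.symm b).1,
      cantorSet_subset_unitInterval (cantorSetHomeomorphNatToBool.symm b).2⟩
  have hc : Continuous ι := by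
    refine Continuous.subtype_mk ?_ _
    exact continuous_subtype_val.comp cantorSetHomeomorphNatToBool.symm.continuous
  have hi : Function.Injective ι := fun b b' h =>
    cantorSetHomeomorphNatToBool.symm.injective (Subtype.ext (Subtype.mk.inj h))
  have he : IsClosedEmbedding ι := hc.isClosedEmbedding hi
  have h : ∀ n, ∃ g : C(unitInterval, ℝ), ∀ b, g (ι b) = if b n then 1 else 0 := by
    intro n
    let f : C(ℕ → Bool, ℝ) := ⟨fun b => if b n then 1 else 0,
      (continuous_of_discreteTopology (f := fun c : Bool => if c then (1 : ℝ) else 0)).comp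
        (continuous_apply n)⟩
    obtain ⟨g, hg⟩ := f.exists_extension' he
    exact ⟨g, fun b => congrFun hg b⟩
  choose φ hφ using h
  exact ⟨φ, fun b => ⟨ι b, fun n => hφ n b⟩⟩

/-- The point of the Cantor space obtained by thresholding at level `u`. -/
def thr (φ : ℕ → C(unitInterval, ℝ)) (t : unitInterval) (u : ℝ) : ℕ → Bool :=
  fun n => decide (u < φ n t)

lemma measurable_thr (φ : ℕ → C(unitInterval, ℝ)) (t : unitInterval) : Measurable (thr φ t) := by
  refine measurable_pi_lambda _ fun n => ?_
  refine measurable_to_bool ?_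
  have : (fun u : ℝ => thr φ t u n) ⁻¹' {true} = Iio (φ n t) := by
    ext u; simp [thr]
  rw [this]
  exact measurableSet_Iio

lemma cont_thr (φ : ℕ → C(unitInterval, ℝ)) (t : unitInterval) (u : ℝ) (hu : ∀ n, u ≠ φ n t) :
    ContinuousAt (fun t' => thr φ t' u) t := by
  refine continuousAt_pi.2 fun n => ?_
  refine (continuousAt_const (y := thr φ t u n)).congr ?_
  rcases lt_or_gt_of_ne (hu n) with h | h
  · filter_upwards [(φ n).continuous.continuousAt.eventually (lt_mem_nhds h)] with t' ht'
    simp [thr, h, ht']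
  · filter_upwards [(φ n).continuous.continuousAt.eventually (gt_mem_nhds h)] with t' ht'
    simp [thr, not_lt.2 h.le, not_lt.2 ht'.le]

lemma integrable_thr (φ : ℕ → C(unitInterval, ℝ)) (f : C(ℕ → Bool, ℝ)) (t : unitInterval) :
    Integrable (fun u => f (thr φ t u)) (volume.restrict (Ioo (0 : ℝ) 1)) :=
  Integrable.of_bound (f.continuous.measurable.comp (measurable_thr φ t)).aestronglyMeasurable
    ‖f‖ (Eventually.of_forall fun _ => f.norm_coe_le_norm _)

/-- The averaging operator. -/
def avg (φ : ℕ → C(unitInterval, ℝ)) (f : C(ℕ → Bool, ℝ)) : C(unitInterval, ℝ) where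
  toFun t := ∫ u in Ioo (0 : ℝ) 1, f (thr φ t u)
  continuous_toFun := by
    refine continuous_iff_continuousAt.2 fun t => ?_
    refine continuousAt_of_dominated (bound := fun _ => ‖f‖)
      (Eventually.of_forall fun t' => (integrable_thr φ f t').aestronglyMeasurable)
      (Eventually.of_forall fun t' => Eventually.of_forall fun _ => f.norm_coe_le_norm _)
      (integrable_const _) ?_
    have h : ∀ᵐ u : ℝ, u ∉ range fun n => φ n t :=
      (countable_range _).ae_notMem _
    filter_upwards [ae_restrict_of_ae h] with u hu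
    exact f.continuous.continuousAt.comp (cont_thr φ t u fun n h => hu ⟨n, h.symm⟩)

lemma exists_isometry_cantor : Nonempty (C(ℕ → Bool, ℝ) →ₗᵢ[ℝ] C(unitInterval, ℝ)) := by
  obtain ⟨φ, hφ⟩ := exists_coords
  let A : C(ℕ → Bool, ℝ) →ₗ[ℝ] C(unitInterval, ℝ) :=
    { toFun := avg φ
      map_add' := fun f g => by
        ext t
        exact integral_add (integrable_thr φ f t) (integrable_thr φ g t)
      map_smul' := fun c f => by
        ext t
        exact integral_const_mul c _ }
  refine ⟨⟨A, fun f => le_antisymm ?_ ?_⟩⟩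
  · refine (ContinuousMap.norm_le _ (norm_nonneg f)).2 fun t => ?_
    have := norm_integral_le_of_norm_le_const (μ := volume.restrict (Ioo (0 : ℝ) 1))
      (f := fun u => f (thr φ t u)) (C := ‖f‖) (Eventually.of_forall fun _ => f.norm_coe_le_norm _)
    rw [Measure.real, Measure.restrict_apply_univ] at this
    exact this.trans (by simp)
  · refine (ContinuousMap.norm_le _ (norm_nonneg _)).2 fun b => ?_
    obtain ⟨t, ht⟩ := hφ b
    have e : A f t = f b := by
      change ∫ u in Ioo (0 : ℝ) 1, f (thr φ t u) = f b
      rw [setIntegral_congr_fun measurableSet_Ioo (g := fun _ => f b)]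
      · simp
      · intro u hu
        have : thr φ t u = b := by
          funext n
          rw [thr, ht]
          cases b n
          · simp [hu.1.le]
          · simp [hu.2]
        simp only [this]
    rw [← e]
    exact (A f).norm_coe_le_norm t

theorem exists_isometry (L : Type) [TopologicalSpace L] [CompactSpace L]
    [TopologicalSpace.MetrizableSpace L] [Nonempty L] :
    Nonempty (C(L, ℝ) →ₗᵢ[ℝ] C(unitInterval, ℝ)) := by
  obtain ⟨A⟩ := exists_isometry_cantor
  let _ := TopologicalSpace.metrizableSpaceMetric L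
  obtain ⟨h, hc, hs⟩ := exists_nat_bool_continuous_surjective_of_compact L
  let B : C(L, ℝ) →ₗ[ℝ] C(ℕ → Bool, ℝ) :=
    { toFun := fun f => f.comp ⟨h, hc⟩
      map_add' := fun _ _ => rfl
      map_smul' := fun _ _ => rfl }
  refine ⟨A.comp ⟨B, fun f => le_antisymm ?_ ?_⟩⟩
  · exact (ContinuousMap.norm_le _ (norm_nonneg f)).2 fun b => f.norm_coe_le_norm _
  · refine (ContinuousMap.norm_le _ (norm_nonneg _)).2 fun p => ?_
    obtain ⟨b, rfl⟩ := hs p
    exact (B f).norm_coe_le_norm b

end

end Pool.Agent.P.MP_eef3c4_an
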