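import Pool.Agent.P.MP_eef3c4_an.BM

/-! The binary tree construction of a copy of `X` in `C[0,1]` without extension property. -/

namespace Pool.Agent.P.MP_eef3c4_an

open Set Filter Topology

noncomputable section

variable {X : Type} [NormedAddCommGroup X] [NormedSpace ℝ X]

/-- The closed unit ball of the dual with the weak-star topology. -/
abbrev Ball (X : Type) [NormedAddCommGroup X] [NormedSpace ℝ X] : Type :=
  (WeakDual.toStrongDual ⁻¹' Metric.closedBall (0 : StrongDual ℝ X) 1 : Set (WeakDual ℝ X))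

instance : CompactSpace (Ball X) :=
  isCompact_iff_compactSpace.1 (WeakDual.isCompact_closedBall _ _)

lemma Ball.norm_le (s : Ball X) : ‖WeakDual.toStrongDual s.1‖ ≤ 1 :=
  mem_closedBall_zero_iff.1 s.2

lemma Ball.abs_le (s : Ball X) (x : X) : |s.1 x| ≤ ‖x‖ := by
  have := (WeakDual.toStrongDual s.1).le_of_opNorm_le s.norm_le x
  simpa using this

lemma sum_abs_le {e : ℕ → X} {B : ℝ} {k : ℕ}
    (he : ∀ F : Finset ℕ, F.card ≤ k → ‖∑ n ∈ F, e n‖ ≤ B) (s : StrongDual ℝ X) (F : Finset ℕ)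
    (hF : F.card ≤ k) : ∑ n ∈ F, |s (e n)| ≤ 2 * ‖s‖ * B := by
  have h : ∀ G : Finset ℕ, G ⊆ F → |∑ n ∈ G, s (e n)| ≤ ‖s‖ * B := fun G hG => by
    rw [← map_sum]
    exact (s.le_opNorm _).trans
      (mul_le_mul_of_nonneg_left (he G ((Finset.card_le_card hG).trans hF)) (norm_nonneg _))
  rw [← Finset.sum_filter_add_sum_filter_not F fun n => 0 ≤ s (e n)]
  have h1 := h _ (Finset.filter_subset (fun n => 0 ≤ s (e n)) F)
  have h2 := h _ (Finset.filter_subset (fun n => ¬ 0 ≤ s (e n)) F)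
  have e1 : ∑ n ∈ F with 0 ≤ s (e n), |s (e n)| = ∑ n ∈ F with 0 ≤ s (e n), s (e n) :=
    Finset.sum_congr rfl fun n hn => abs_of_nonneg (Finset.mem_filter.1 hn).2
  have e2 : ∑ n ∈ F with ¬ 0 ≤ s (e n), |s (e n)| = -∑ n ∈ F with ¬ 0 ≤ s (e n), s (e n) := by
    rw [← Finset.sum_neg_distrib]
    exact Finset.sum_congr rfl fun n hn => abs_of_neg (not_le.1 (Finset.mem_filter.1 hn).2)
  rw [e1, e2]
  linarith [le_abs_self (∑ n ∈ F with 0 ≤ s (e n), s (e n)),
    neg_abs_le (∑ n ∈ F with ¬ 0 ≤ s (e n), s (e n))]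

lemma weak_null {e : ℕ → X} {C θ : ℝ} (hθ0 : 0 ≤ θ) (hθ1 : θ < 1)
    (he : ∀ j (F : Finset ℕ), F.card ≤ 2 ^ j → ‖∑ n ∈ F, e n‖ ≤ C * (2 * θ) ^ j)
    (s : StrongDual ℝ X) : Tendsto (fun n => s (e n)) atTop (𝓝 0) := by
  rw [← Nat.cofinite_eq_atTop, Metric.tendsto_nhds]
  intro δ hδ
  rw [eventually_cofinite]
  by_contra hinf
  have h1 : Tendsto (fun j : ℕ => 2 * ‖s‖ * C * θ ^ j) atTop (𝓝 (2 * ‖s‖ * C * 0)) :=
    (tendsto_pow_atTop_nhds_zero_of_lt_one hθ0 hθ1).const_mul _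
  rw [mul_zero] at h1
  obtain ⟨j, hj⟩ := (h1.eventually (gt_mem_nhds hδ)).exists
  obtain ⟨F, hF, hc⟩ := Set.Infinite.exists_subset_card_eq hinf (2 ^ j)
  have h2 := sum_abs_le (he j) s F hc.le
  have h3 : F.card • δ ≤ ∑ n ∈ F, |s (e n)| := Finset.card_nsmul_le_sum _ _ _ fun n hn => by
    simpa using hF hn
  rw [hc, nsmul_eq_mul] at h3
  push_cast at h3
  have h4 : (0 : ℝ) < 2 ^ j := by positivity
  rw [mul_pow] at h2
  nlinarith

/-- The position of a node in the binary tree. -/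
def addr : List (ℕ × Bool) → ℕ
  | [] => 0
  | q :: l => 2 * addr l + if q.2 then 1 else 0

lemma exists_potential (c : ℕ → ℕ → ℝ) (B θ : ℝ) (hθ0 : 0 ≤ θ) (hθ1 : θ < 1)
    (hc : ∀ j (T : Finset ℕ) (ν : ℕ → ℕ), T.card ≤ 2 ^ j →
      ∑ τ ∈ T, |c τ (ν τ)| ≤ B * (2 * θ) ^ j) :
    ∃ S : ℕ → ℝ, (∀ σ, 0 < S σ ∧ S σ ≤ B / (1 - θ) + 1) ∧
      ∀ σ n, 2 * (S σ + |c σ n|) ≤ S (2 * σ) + S (2 * σ + 1) := by
  have hb : ∀ τ, BddAbove (range fun n => |c τ n|) := fun τ => ⟨B, by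
    rintro _ ⟨n, rfl⟩
    simpa using hc 0 {τ} (fun _ => n) (by simp)⟩
  set a : ℕ → ℝ := fun τ => ⨆ n, |c τ n| with ha
  have ha1 : ∀ τ n, |c τ n| ≤ a τ := fun τ n => le_ciSup (hb τ) n
  have ha0 : ∀ τ, 0 ≤ a τ := fun τ => (abs_nonneg _).trans (ha1 τ 0)
  have ha2 : ∀ j (T : Finset ℕ), T.card ≤ 2 ^ j → ∑ τ ∈ T, a τ ≤ B * (2 * θ) ^ j := by
    intro j T hT
    refine le_of_forall_pos_le_add fun ε hε => ?_
    have hε' : 0 < ε / (T.card + 1) := by positivity
    choose ν hν using fun τ => exists_lt_of_lt_ciSup (sub_lt_self (a τ) hε')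
    have h1 : ∑ τ ∈ T, a τ ≤ ∑ τ ∈ T, (|c τ (ν τ)| + ε / (T.card + 1)) :=
      Finset.sum_le_sum fun τ _ => by linarith [hν τ]
    rw [Finset.sum_add_distrib, Finset.sum_const, nsmul_eq_mul] at h1
    have h2 : (T.card : ℝ) * (ε / (T.card + 1)) ≤ ε := by
      rw [← mul_div_assoc, div_le_iff₀ (by positivity)]; nlinarith
    linarith [hc j T ν hT]
  set b : ℕ → ℕ → ℝ := fun σ j => (∑ t ∈ Finset.range (2 ^ j), a (2 ^ j * σ + t)) / 2 ^ j with hbd
  have hb0 : ∀ σ j, 0 ≤ b σ j := fun σ j =>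
    div_nonneg (Finset.sum_nonneg fun _ _ => ha0 _) (by positivity)
  have hb1 : ∀ σ j, b σ j ≤ B * θ ^ j := by
    intro σ j
    have h := ha2 j ((Finset.range (2 ^ j)).image fun t => 2 ^ j * σ + t)
      (Finset.card_image_le.trans (by simp))
    rw [Finset.sum_image fun x _ y _ h => Nat.add_left_cancel h] at h
    rw [hbd, div_le_iff₀ (by positivity)]
    rw [mul_pow] at h
    linarith
  have hb2 : ∀ σ j, 2 * b σ (j + 1) = b (2 * σ) j + b (2 * σ + 1) j := by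
    intro σ j
    simp only [hbd]
    rw [show 2 ^ (j + 1) = 2 ^ j + 2 ^ j by ring, Finset.sum_range_add, ← add_div]
    have e1 : ∀ t, (2 ^ j + 2 ^ j) * σ + t = 2 ^ j * (2 * σ) + t := fun t => by ring
    have e2 : ∀ t, (2 ^ j + 2 ^ j) * σ + (2 ^ j + t) = 2 ^ j * (2 * σ + 1) + t := fun t => by ring
    simp only [e2]
    simp only [e1]
    field_simp
    ring
  have hg := hasSum_geometric_of_lt_one hθ0 hθ1
  have hs : ∀ σ, Summable (b σ) := fun σ =>
    Summable.of_nonneg_of_le (hb0 σ) (hb1 σ) (hg.summable.mul_left B)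
  have hD : ∀ σ, ∑' j, b σ j ≤ B / (1 - θ) := fun σ => by
    have := (hs σ).tsum_le_tsum (hb1 σ) (hg.summable.mul_left B)
    rwa [(hg.mul_left B).tsum_eq, ← div_eq_mul_inv] at this
  have hD0 : ∀ σ, 0 ≤ ∑' j, b σ j := fun σ => tsum_nonneg (hb0 σ)
  refine ⟨fun σ => B / (1 - θ) + 1 - ∑' j, b σ j, fun σ => ⟨by linarith [hD σ], by
    linarith [hD0 σ]⟩, fun σ n => ?_⟩
  have h1 := (hs σ).tsum_eq_zero_add
  have h2 : 2 * ∑' j, b σ (j + 1) = ∑' j, b (2 * σ) j + ∑' j, b (2 * σ + 1) j := by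
    rw [← tsum_mul_left, ← (hs _).tsum_add (hs _)]
    exact tsum_congr (hb2 σ)
  have h3 : b σ 0 = a σ := by simp [hbd]
  have := ha1 σ n
  simp only
  linarith

/-- The corrections along the tree. -/
def corr (c : ℕ → ℕ → ℝ) (S : ℕ → ℝ) : List (ℕ × Bool) → ℝ
  | [] => 0
  | q :: l => 2 * (corr c S l - c (addr l) q.1) * S (addr (q :: l)) /
      (S (2 * addr l) + S (2 * addr l + 1))

lemma exists_corr (c : ℕ → ℕ → ℝ) (S : ℕ → ℝ) (h0 : ∀ σ, 0 < S σ)
    (h : ∀ σ n, 2 * (S σ + |c σ n|) ≤ S (2 * σ) + S (2 * σ + 1)) :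
    ∃ r : List (ℕ × Bool) → ℝ, (∀ l, |r l| ≤ S (addr l)) ∧
      ∀ n l, r ((n, false) :: l) + r ((n, true) :: l) = 2 * (r l - c (addr l) n) := by
  have hp : ∀ σ, 0 < S (2 * σ) + S (2 * σ + 1) := fun σ => add_pos (h0 _) (h0 _)
  refine ⟨corr c S, fun l => ?_, fun n l => ?_⟩
  · induction l with
    | nil => simpa [corr] using (h0 _).le
    | cons q l ih =>
      rw [corr, abs_div, abs_of_pos (hp _), div_le_iff₀ (hp _), abs_mul, abs_of_pos (h0 _),
        mul_comm]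
      refine mul_le_mul_of_nonneg_left ?_ (h0 _).le
      rw [abs_mul, abs_two]
      linarith [abs_sub (corr c S l) (c (addr l) q.1), h (addr l) q.1]
  · have := (hp (addr l)).ne'
    simp only [corr, addr, if_true, Bool.false_eq_true, if_false, add_zero]
    field_simp

lemma exists_copy [TopologicalSpace.SeparableSpace X] (e : ℕ → X) (C θ : ℝ) (hθ0 : 0 ≤ θ)
    (hθ1 : θ < 1)
    (he : ∀ j (F : Finset ℕ), F.card ≤ 2 ^ j → ‖∑ n ∈ F, e n‖ ≤ C * (2 * θ) ^ j) :
    ∃ (j : X →ₗᵢ[ℝ] C(unitInterval, ℝ)) (ρ : List (ℕ × Bool) → C(unitInterval, ℝ)) (C' : ℝ),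
      (∀ l, ‖ρ l‖ ≤ C') ∧ ∀ n l, ρ ((n, false) :: l) + ρ ((n, true) :: l) =
        (2 : ℝ) • (ρ l - j (e (Nat.pair (addr l) n))) := by
  set C' : ℝ := 2 * C / (1 - θ) + 1 with hC'
  set L : Set (Ball X × (List (ℕ × Bool) → ℝ)) := {p | (∀ l, |p.2 l| ≤ C') ∧
    ∀ n l, p.2 ((n, false) :: l) + p.2 ((n, true) :: l) =
      2 * (p.2 l - p.1.1 (e (Nat.pair (addr l) n)))} with hL
  have hev : ∀ x : X, Continuous fun p : Ball X × (List (ℕ × Bool) → ℝ) => p.1.1 x := fun x =>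
    (WeakDual.eval_continuous x).comp (continuous_subtype_val.comp continuous_fst)
  have hco : ∀ l, Continuous fun p : Ball X × (List (ℕ × Bool) → ℝ) => p.2 l := fun l =>
    (continuous_apply l).comp continuous_snd
  have hLc : IsClosed L := by
    rw [hL, ofPred_and, ofPred_forall, ofPred_forall]
    refine IsClosed.inter (isClosed_iInter fun l => isClosed_le (hco l).abs continuous_const)
      (isClosed_iInter fun n => ?_)
    rw [ofPred_forall]
    exact isClosed_iInter fun l => isClosed_eq ((hco _).add (hco _))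
      (continuous_const.mul ((hco _).sub (hev _)))
  have hLk : IsCompact L := ((isCompact_univ (X := Ball X)).prod
    (isCompact_univ_pi fun _ => isCompact_Icc (a := -C') (b := C'))).of_isClosed_subset hLc
    fun p hp => ⟨trivial, fun l _ => abs_le.1 (hp.1 l)⟩
  have hsur : ∀ s : Ball X, ∃ r, (s, r) ∈ L := by
    intro s
    obtain ⟨S, hS, hS'⟩ := exists_potential (fun σ n => s.1 (e (Nat.pair σ n))) (2 * C) θ hθ0 hθ1
      (fun j T ν hT => by
        have h := sum_abs_le (he j) (WeakDual.toStrongDual s.1)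
          (T.image fun τ => Nat.pair τ (ν τ)) (Finset.card_image_le.trans hT)
        rw [Finset.sum_image fun x _ y _ h => (Nat.pair_eq_pair.1 h).1] at h
        have h0 : 0 ≤ C * (2 * θ) ^ j := (norm_nonneg _).trans (he j ∅ (by simp))
        have := s.norm_le
        refine h.trans ?_
        nlinarith)
    obtain ⟨r, hr, hr'⟩ := exists_corr _ S (fun σ => (hS σ).1) hS'
    exact ⟨r, fun l => (hr l).trans (hS _).2, hr'⟩
  have : CompactSpace L := isCompact_iff_compactSpace.1 hLk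
  have : TopologicalSpace.MetrizableSpace (Ball X) :=
    WeakDual.metrizable_of_isCompact ℝ X _ (WeakDual.isCompact_closedBall _ _)
  have : SecondCountableTopology (Ball X) := inferInstance
  have : TopologicalSpace.MetrizableSpace L := inferInstance
  have : Nonempty L := by
    obtain ⟨r, hr⟩ := hsur ⟨0, by simp⟩
    exact ⟨⟨_, hr⟩⟩
  obtain ⟨E⟩ := exists_isometry L
  let j0 : X →ₗ[ℝ] C(L, ℝ) :=
    { toFun := fun x => ⟨fun p => p.1.1.1 x, (hev x).comp continuous_subtype_val⟩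
      map_add' := fun x y => by ext p; exact map_add p.1.1.1 x y
      map_smul' := fun c x => by ext p; exact map_smul p.1.1.1 c x }
  have hj0 : ∀ x, ‖j0 x‖ = ‖x‖ := by
    intro x
    refine le_antisymm ((ContinuousMap.norm_le _ (norm_nonneg x)).2 fun p => p.1.1.abs_le x) ?_
    obtain ⟨s, hs, hsx⟩ := exists_dual_vector'' ℝ x
    obtain ⟨r, hr⟩ := hsur ⟨StrongDual.toWeakDual s, by simpa using hs⟩
    have := (j0 x).norm_coe_le_norm ⟨_, hr⟩
    refine le_trans ?_ this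
    change ‖x‖ ≤ ‖s x‖
    rw [hsx]; simp
  let ρ0 : List (ℕ × Bool) → C(L, ℝ) := fun l =>
    ⟨fun p => p.1.2 l, (hco l).comp continuous_subtype_val⟩
  have hC0 : 0 ≤ C' := by
    obtain ⟨p⟩ := ‹Nonempty L›
    exact (abs_nonneg _).trans (p.2.1 [])
  refine ⟨E.comp ⟨j0, hj0⟩, fun l => E (ρ0 l), C', fun l => ?_, fun n l => ?_⟩
  · rw [E.norm_map]
    exact (ContinuousMap.norm_le _ hC0).2 fun p => p.2.1 l
  · change _ = (2 : ℝ) • (E (ρ0 l) - E (j0 _))
    rw [← map_add, ← map_sub, ← map_smul]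
    congr 1
    ext p
    exact p.2.2 n l

open Classical in
/-- A functional as a point of the dual ball. -/
def pt (s : StrongDual ℝ X) : Ball X :=
  if h : ‖s‖ ≤ 1 then ⟨StrongDual.toWeakDual s, by simpa using h⟩ else ⟨0, by simp⟩

lemma pt_apply {s : StrongDual ℝ X} (h : ‖s‖ ≤ 1) (x : X) : (pt s).1 x = s x := by
  rw [pt, dif_pos h]; rfl

lemma tendsto_pt {s : StrongDual ℝ X} {u : ℕ → StrongDual ℝ X} (hs : ‖s‖ ≤ 1)
    (hu : ∀ᶠ n in atTop, ‖u n‖ ≤ 1) (h : ∀ x, Tendsto (fun n => u n x) atTop (𝓝 (s x))) :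
    Tendsto (fun n => pt (u n)) atTop (𝓝 (pt s)) := by
  rw [tendsto_subtype_rng, tendsto_iff_forall_eval_tendsto_topDualPairing]
  intro x
  change Tendsto (fun n => (pt (u n)).1 x) atTop (𝓝 ((pt s).1 x))
  rw [pt_apply hs]
  refine (h x).congr' ?_
  filter_upwards [hu] with n hn
  rw [pt_apply hn]

theorem core [TopologicalSpace.SeparableSpace X] (e : ℕ → X) (g : ℕ → StrongDual ℝ X) (C θ : ℝ)
    (hθ0 : 0 ≤ θ) (hθ1 : θ < 1)
    (he : ∀ j (F : Finset ℕ), F.card ≤ 2 ^ j → ‖∑ n ∈ F, e n‖ ≤ C * (2 * θ) ^ j)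
    (hg0 : ∀ x, Tendsto (fun n => g n x) atTop (𝓝 0))
    (hge : Tendsto (fun n => g n (e n)) atTop (𝓝 1))
    (ν : StrongDual ℝ X → ℝ) (M : ℝ) (hM : 0 < M) (hν : ∀ s, ‖s‖ ≤ M * ν s) (hν0 : ν 0 = 0)
    (hgr : ∀ η > 0, ∃ R, 0 ≤ R ∧ ∀ s, ∀ᶠ n in atTop, ν (s + g n) ≤ max (ν s + η) R) :
    ∃ j : X →ₗᵢ[ℝ] C(unitInterval, ℝ), ∀ T : C(unitInterval, ℝ) →L[ℝ] C(Ball X, ℝ),
      ¬ ∀ x s, T (j x) s = s.1 x := by
  obtain ⟨j, ρ, C', hρ, hrel⟩ := exists_copy e C θ hθ0 hθ1 he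
  refine ⟨j, fun T hT => ?_⟩
  have hC0 : 0 ≤ C' := (norm_nonneg _).trans (hρ [])
  set Q : ℝ := ‖T‖ * C' with hQ
  have hQ0 : 0 ≤ Q := mul_nonneg T.opNorm_nonneg hC0
  have hb : ∀ l s, |T (ρ l) s| ≤ Q := fun l s =>
    ((T (ρ l)).norm_coe_le_norm s).trans (T.le_of_opNorm_le_of_le le_rfl (hρ l))
  set η : ℝ := 1 / (4 * (Q * M + 1)) with hη
  have hη0 : 0 < η := by positivity
  obtain ⟨R, hR0, hR⟩ := hgr η hη0
  obtain ⟨N, hN⟩ := exists_nat_gt (4 * (Q * M) * R)
  have hN0 : (0 : ℝ) < N := lt_of_le_of_lt (by positivity) hN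
  set α : ℝ := 1 / (M * (R + N * η)) with hα
  have hα0 : 0 < α := by positivity
  have hball : ∀ (s : StrongDual ℝ X) (k : ℕ), k ≤ N → ν s ≤ R + k * η → ‖α • s‖ ≤ 1 := by
    intro s k hk h
    have h1 : (k : ℝ) * η ≤ N * η := mul_le_mul_of_nonneg_right (Nat.cast_le.2 hk) hη0.le
    rw [norm_smul, Real.norm_of_nonneg hα0.le, hα, one_div, inv_mul_le_iff₀ (by positivity),
      mul_one]
    exact (hν s).trans (mul_le_mul_of_nonneg_left (by linarith) hM.le)
  have key : ∀ r k : ℕ, k + r = N → ∀ l s, ν s ≤ R + k * η →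
      r * α - Q ≤ T (ρ l) (pt (α • s)) := by
    intro r
    induction r with
    | zero => intro k _ l s _; simpa using (abs_le.1 (hb l _)).1
    | succ r ih =>
      intro k hk l s hs
      have hm : Tendsto (fun n => Nat.pair (addr l) n) atTop atTop :=
        tendsto_atTop_mono (fun n => Nat.right_le_pair _ n) tendsto_id
      have h1 : ∀ᶠ n in atTop, ν (s + g (Nat.pair (addr l) n)) ≤ R + (k + 1 : ℕ) * η := by
        filter_upwards [hm.eventually (hR s)] with n hn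
        refine hn.trans (max_le ?_ ?_)
        · push_cast; linarith
        · have : (0 : ℝ) ≤ (k + 1 : ℕ) * η := by positivity
          linarith
      have h2 : Tendsto (fun n => T (ρ l) (pt (α • (s + g (Nat.pair (addr l) n))))) atTop
          (𝓝 (T (ρ l) (pt (α • s)))) := by
        refine ((T (ρ l)).continuous.tendsto _).comp (tendsto_pt (hball s k (by omega) hs)
          (h1.mono fun n hn => hball _ (k + 1) (by omega) hn) fun x => ?_)
        have := (((hg0 x).comp hm).const_add (s x)).const_mul α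
        simpa [mul_add] using this
      have h3 : Tendsto (fun n => r * α - Q + α * (s (e (Nat.pair (addr l) n)) +
          g (Nat.pair (addr l) n) (e (Nat.pair (addr l) n)))) atTop
          (𝓝 (r * α - Q + α * (0 + 1))) :=
        ((((weak_null hθ0 hθ1 he s).comp hm).add (hge.comp hm)).const_mul α).const_add _
      refine le_trans (le_of_eq (by push_cast; ring)) (le_of_tendsto_of_tendsto h3 h2 ?_)
      filter_upwards [h1] with n hn
      have i0 := ih (k + 1) (by omega) ((n, false) :: l) _ hn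
      have i1 := ih (k + 1) (by omega) ((n, true) :: l) _ hn
      have e1 := congrArg (fun h => T h (pt (α • (s + g (Nat.pair (addr l) n))))) (hrel n l)
      simp only [map_add, map_smul, map_sub, ContinuousMap.add_apply, ContinuousMap.smul_apply,
        ContinuousMap.sub_apply, smul_eq_mul, hT] at e1
      rw [pt_apply (hball _ (k + 1) (by omega) hn)] at e1
      simp only [_root_.smul_apply, _root_.add_apply, smul_eq_mul] at e1
      linarith
  have h1 := (key N 0 (zero_add _) [] 0 (by simpa [hν0] using hR0)).trans (abs_le.1 (hb [] _)).2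
  have h2 : (N : ℝ) ≤ 2 * Q * (M * (R + N * η)) := by
    have : (N : ℝ) * α ≤ 2 * Q := by linarith
    rwa [hα, mul_one_div, div_le_iff₀ (by positivity)] at this
  have h3 : Q * M * η ≤ 1 / 4 := by
    rw [hη, mul_one_div, div_le_iff₀ (by positivity)]; linarith
  nlinarith

end

end Pool.Agent.P.MP_eef3c4_an
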