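import Pool.Agent.P.MP_eef3c4_an.Core

/-! Sequences in a uniformly convex space and the main theorem. -/

namespace Pool.Agent.P.MP_eef3c4_an

open Set Filter Topology

noncomputable section

variable {Z : Type} [NormedAddCommGroup Z] [NormedSpace ℝ Z]

lemma exists_unit_ker (hZ : ¬ FiniteDimensional ℝ Z) (Φ : Finset (StrongDual ℝ Z)) :
    ∃ y : Z, ‖y‖ = 1 ∧ ∀ φ ∈ Φ, φ y = 0 := by
  let A : Z →ₗ[ℝ] (Φ → ℝ) := LinearMap.pi fun φ => (φ.1 : Z →ₗ[ℝ] ℝ)
  have h : ¬ Function.Injective A := fun h => hZ (Module.Finite.of_injective A h)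
  rw [← LinearMap.ker_eq_bot, Submodule.eq_bot_iff] at h
  push Not at h
  obtain ⟨y, hy, hy0⟩ := h
  refine ⟨‖y‖⁻¹ • y, norm_smul_inv_norm hy0, fun φ hφ => ?_⟩
  have : φ y = 0 := congrFun (LinearMap.mem_ker.1 hy) ⟨φ, hφ⟩
  rw [map_smul, this, smul_zero]

lemma exists_seq (hZ : ¬ FiniteDimensional ℝ Z) :
    ∃ e : ℕ → Z, (∀ n, ‖e n‖ = 1) ∧ ∀ F G : Finset ℕ, (∀ a ∈ F, ∀ b ∈ G, a < b) →
      ‖∑ n ∈ F, e n‖ ≤ ‖∑ n ∈ F, e n - ∑ n ∈ G, e n‖ := by
  classical
  choose nf h1 h2 using fun z : Z => exists_dual_vector'' ℝ z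
  obtain ⟨f, hf, hr⟩ := exists_seq_of_forall_finset_exists (α := Z × Finset Z)
    (fun p => ‖p.1‖ = 1 ∧ p.1 ∈ p.2)
    (fun p q => (∀ z ∈ p.2, nf z q.1 = 0) ∧ ∀ z ∈ p.2, q.1 + z ∈ q.2) (by
      intro s _
      obtain ⟨y, hy, hy'⟩ := exists_unit_ker hZ ((s.biUnion fun p => p.2).image nf)
      refine ⟨(y, insert y ((s.biUnion fun p => p.2).image fun z => y + z)),
        ⟨hy, Finset.mem_insert_self _ _⟩, fun p hp => ⟨fun z hz => ?_, fun z hz => ?_⟩⟩
      · exact hy' _ (Finset.mem_image_of_mem _ (Finset.mem_biUnion.2 ⟨p, hp, hz⟩))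
      · exact Finset.mem_insert_of_mem
          (Finset.mem_image_of_mem _ (Finset.mem_biUnion.2 ⟨p, hp, hz⟩)))
  have key : ∀ F : Finset ℕ, F.Nonempty → ∃ m ∈ F, ∑ n ∈ F, (f n).1 ∈ (f m).2 := by
    intro F
    induction F using Finset.induction_on_max with
    | empty => intro h; simp at h
    | insert a s ha ih =>
      intro _
      refine ⟨a, Finset.mem_insert_self _ _, ?_⟩
      rw [Finset.sum_insert fun h => lt_irrefl _ (ha a h)]
      rcases s.eq_empty_or_nonempty with rfl | hs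
      · simpa using (hf a).2
      · obtain ⟨m, hm, h⟩ := ih hs
        exact (hr m a (ha m hm)).2 _ h
  refine ⟨fun n => (f n).1, fun n => (hf n).1, fun F G h => ?_⟩
  rcases F.eq_empty_or_nonempty with rfl | hF
  · simp
  obtain ⟨m, hm, hs⟩ := key F hF
  set x := ∑ n ∈ F, (f n).1
  have e1 : nf x (x - ∑ n ∈ G, (f n).1) = ‖x‖ := by
    rw [map_sub, h2, map_sum, Finset.sum_eq_zero fun b hb => (hr m b (h m hm b hb)).1 _ hs]
    simp
  have := (nf x).le_of_opNorm_le (h1 x) (x - ∑ n ∈ G, (f n).1)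
  rw [e1] at this
  simpa using this

lemma exists_split (F : Finset ℕ) (k : ℕ) (h : F.card ≤ k + k) :
    ∃ c, (F.filter (· < c)).card ≤ k ∧ (F.filter fun n => ¬ n < c).card ≤ k := by
  have h0 : ∀ i ≤ F.card, ∃ c, (F.filter (· < c)).card = i := by
    intro i
    induction i with
    | zero => exact fun _ => ⟨0, by simp⟩
    | succ i ih =>
      intro hi
      obtain ⟨c, hc⟩ := ih (by omega)
      have h1 := Finset.card_filter_add_card_filter_not (s := F) (· < c)
      have h2 : (F.filter fun n => ¬ n < c).Nonempty := Finset.card_pos.1 (by omega)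
      refine ⟨(F.filter fun n => ¬ n < c).min' h2 + 1, ?_⟩
      have h3 := Finset.mem_filter.1 (Finset.min'_mem _ h2)
      have : F.filter (· < (F.filter fun n => ¬ n < c).min' h2 + 1) =
          insert ((F.filter fun n => ¬ n < c).min' h2) (F.filter (· < c)) := by
        ext n
        simp only [Finset.mem_filter, Finset.mem_insert]
        constructor
        · rintro ⟨h4, h5⟩
          by_cases h6 : n < c
          · exact Or.inr ⟨h4, h6⟩
          · have := Finset.min'_le (F.filter fun n => ¬ n < c) n (Finset.mem_filter.2 ⟨h4, h6⟩)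
            left; omega
        · rintro (rfl | ⟨h4, h5⟩)
          · exact ⟨h3.1, Nat.lt_succ_self _⟩
          · exact ⟨h4, by omega⟩
      have h7 : (F.filter fun n => ¬ n < c).min' h2 ∉ F.filter (· < c) := fun h =>
        h3.2 (Finset.mem_filter.1 h).2
      rw [this, Finset.card_insert_of_notMem h7, hc]
  obtain ⟨c, hc⟩ := h0 (min k F.card) (min_le_right _ _)
  have h1 := Finset.card_filter_add_card_filter_not (s := F) (· < c)
  exact ⟨c, by omega, by omega⟩

lemma sum_bound [UniformConvexSpace Z] {e : ℕ → Z} (h1 : ∀ n, ‖e n‖ = 1)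
    (h2 : ∀ F G : Finset ℕ, (∀ a ∈ F, ∀ b ∈ G, a < b) →
      ‖∑ n ∈ F, e n‖ ≤ ‖∑ n ∈ F, e n - ∑ n ∈ G, e n‖) :
    ∃ θ : ℝ, 0 ≤ θ ∧ θ < 1 ∧ ∀ j (F : Finset ℕ), F.card ≤ 2 ^ j →
      ‖∑ n ∈ F, e n‖ ≤ (2 * θ) ^ j := by
  obtain ⟨δ, hδ, h⟩ := exists_forall_closed_ball_dist_add_le_two_sub Z (ε := 1 / 2) (by norm_num)
  refine ⟨max (3 / 4) (1 - δ / 2), le_max_of_le_left (by norm_num),
    max_lt (by norm_num) (by linarith), fun j => ?_⟩
  set θ : ℝ := max (3 / 4) (1 - δ / 2)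
  have t1 : 3 / 4 ≤ θ := le_max_left _ _
  have t2 : 1 - δ / 2 ≤ θ := le_max_right _ _
  induction j with
  | zero =>
    intro F hF
    refine (norm_sum_le _ _).trans ?_
    simpa [h1] using hF
  | succ j ih =>
    intro F hF
    obtain ⟨c, c1, c2⟩ := exists_split F (2 ^ j) (by omega)
    rw [← Finset.sum_filter_add_sum_filter_not F (· < c), pow_succ]
    have i1 := ih _ c1
    have i2 := ih _ c2
    have i3 := h2 (F.filter (· < c)) (F.filter fun n => ¬ n < c) fun a ha b hb => by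
      have := (Finset.mem_filter.1 ha).2
      have := (Finset.mem_filter.1 hb).2
      omega
    set x := ∑ n ∈ F with n < c, e n
    set y := ∑ n ∈ F with ¬ n < c, e n
    set A : ℝ := (2 * θ) ^ j
    have hA : 0 < A := by positivity
    by_cases hx : ‖x‖ ≤ A / 2
    · have := norm_add_le x y
      nlinarith
    · have hn : ∀ z : Z, ‖A⁻¹ • z‖ = ‖z‖ / A := fun z => by
        rw [norm_smul, Real.norm_of_nonneg (by positivity), div_eq_inv_mul]
      have := h (x := A⁻¹ • x) (by rw [hn, div_le_one hA]; exact i1) (y := A⁻¹ • y)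
        (by rw [hn, div_le_one hA]; exact i2)
        (by rw [← smul_sub, hn, le_div_iff₀ hA]; linarith)
      rw [← smul_add, hn, div_le_iff₀ hA] at this
      nlinarith

lemma growth [UniformConvexSpace Z] {g : ℕ → StrongDual ℝ Z} (hg : ∀ n, ‖g n‖ ≤ 2)
    (hg0 : ∀ x, Tendsto (fun n => g n x) atTop (𝓝 0)) (η : ℝ) (hη : 0 < η) :
    ∃ R, 0 ≤ R ∧ ∀ s : StrongDual ℝ Z, ∀ᶠ n in atTop, ‖s + g n‖ ≤ max (‖s‖ + η) R := by
  obtain ⟨δ, hδ, h⟩ := exists_forall_closed_ball_dist_add_le_two_sub Z (ε := η / 4) (by positivity)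
  refine ⟨4 / δ + 3, by positivity, fun s => ?_⟩
  by_cases hs : ‖s‖ ≤ 4 / δ + 1
  · exact Eventually.of_forall fun n => le_max_of_le_right
      ((norm_add_le _ _).trans (by linarith [hg n]))
  push Not at hs
  have h4 : 0 < 4 / δ := by positivity
  obtain ⟨x₀, hx₀, hsx⟩ := s.exists_lt_apply_of_lt_opNorm (r := ‖s‖ - 1) (by linarith)
  obtain ⟨x₁, hx₁, hsx₁⟩ : ∃ x₁ : Z, ‖x₁‖ ≤ 1 ∧ ‖s‖ - 1 < s x₁ := by
    rcases lt_abs.1 hsx with h | h
    · exact ⟨x₀, hx₀.le, h⟩
    · exact ⟨-x₀, by simpa using hx₀.le, by simpa using h⟩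
  filter_upwards [(hg0 x₁).abs.eventually (gt_mem_nhds (by simpa using half_pos hη :
    |(0 : ℝ)| < η / 2))] with n hn
  refine le_max_of_le_left ?_
  have key : ∀ x : Z, ‖x‖ ≤ 1 → s x + g n x ≤ ‖s‖ + η := by
    intro x hx
    by_contra hc
    push Not at hc
    have a1 : |g n x| ≤ 2 := by
      have := (g n).le_of_opNorm_le_of_le (hg n) hx
      simpa using this
    have a2 : |s x| ≤ ‖s‖ := by
      have := s.le_of_opNorm_le_of_le le_rfl hx
      simpa using this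
    by_cases hd : η / 4 ≤ ‖x - x₁‖
    · have a3 : |s (x + x₁)| ≤ ‖s‖ * (2 - δ) := s.le_of_opNorm_le_of_le le_rfl (h hx hx₁ hd)
      rw [map_add] at a3
      have a4 : 4 < δ * ‖s‖ := by
        have : 4 / δ < ‖s‖ := by linarith
        rwa [div_lt_iff₀' hδ] at this
      linarith [le_abs_self (s x + s x₁), le_abs_self (g n x)]
    · push Not at hd
      have a3 : |g n (x - x₁)| ≤ 2 * (η / 4) := (g n).le_of_opNorm_le_of_le (hg n) hd.le
      rw [map_sub] at a3
      linarith [le_abs_self (g n x - g n x₁), le_abs_self (g n x₁), le_abs_self (s x)]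
  refine ContinuousLinearMap.opNorm_le_of_unit_norm (by positivity) fun x hx => ?_
  rw [Real.norm_eq_abs, abs_le]
  have k1 := key x hx.le
  have k2 := key (-x) (by simpa using hx.le)
  simp only [map_neg] at k2
  simp only [_root_.add_apply]
  constructor <;> linarith

lemma exists_data [TopologicalSpace.SeparableSpace Z] (hZ : ¬ FiniteDimensional ℝ Z)
    [UniformConvexSpace Z] :
    ∃ (e : ℕ → Z) (g : ℕ → StrongDual ℝ Z) (θ : ℝ), 0 ≤ θ ∧ θ < 1 ∧
      (∀ j (F : Finset ℕ), F.card ≤ 2 ^ j → ‖∑ n ∈ F, e n‖ ≤ (2 * θ) ^ j) ∧ (∀ n, ‖g n‖ ≤ 2) ∧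
      (∀ x, Tendsto (fun n => g n x) atTop (𝓝 0)) ∧ Tendsto (fun n => g n (e n)) atTop (𝓝 1) := by
  obtain ⟨e, h1, h2⟩ := exists_seq hZ
  obtain ⟨θ, hθ0, hθ1, he⟩ := sum_bound h1 h2
  choose f hf hf' using fun n => exists_dual_vector'' ℝ (e n)
  obtain ⟨f₀, hf₀, ψ, hψ, hlim⟩ := WeakDual.isSeqCompact_closedBall ℝ Z 0 1
    (x := fun n => StrongDual.toWeakDual (f n)) fun n => mem_closedBall_zero_iff.2 (hf n)
  obtain ⟨f₁, hn₁, hl⟩ : ∃ f₁ : StrongDual ℝ Z, ‖f₁‖ ≤ 1 ∧
      ∀ x, Tendsto (fun n => f (ψ n) x) atTop (𝓝 (f₁ x)) :=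
    ⟨WeakDual.toStrongDual f₀, mem_closedBall_zero_iff.1 hf₀,
      tendsto_iff_forall_eval_tendsto_topDualPairing.1 hlim⟩
  refine ⟨fun n => e (ψ n), fun n => f (ψ n) - f₁, θ, hθ0, hθ1, fun j F hF => ?_,
    fun n => (norm_sub_le _ _).trans (by linarith [hf (ψ n)]), fun x => ?_, ?_⟩
  · rw [← Finset.sum_image (g := ψ) (f := e) hψ.injective.injOn]
    exact he j _ (Finset.card_image_le.trans hF)
  · have := (hl x).sub_const (f₁ x)
    rw [sub_self] at this
    exact this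
  · have := ((weak_null (C := 1) hθ0 hθ1 (by simpa using he) f₁).comp
      hψ.tendsto_atTop).const_sub 1
    rw [sub_zero] at this
    refine this.congr fun n => ?_
    change _ = f (ψ n) (e (ψ n)) - f₁ (e (ψ n))
    rw [hf', h1]; rfl

theorem main {X : Type} [NormedAddCommGroup X] [NormedSpace ℝ X]
    [TopologicalSpace.SeparableSpace X] (hX : ¬ FiniteDimensional ℝ X) [UniformConvexSpace Z]
    (Φ : X ≃L[ℝ] Z) :
    ∃ j : X →ₗᵢ[ℝ] C(unitInterval, ℝ), ∀ T : C(unitInterval, ℝ) →L[ℝ] C(Ball X, ℝ),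
      ¬ ∀ x s, T (j x) s = s.1 x := by
  have hZ : ¬ FiniteDimensional ℝ Z := fun _ => hX (Module.Finite.equiv Φ.symm.toLinearEquiv)
  have : TopologicalSpace.SeparableSpace Z :=
    Φ.surjective.denseRange.separableSpace Φ.continuous
  obtain ⟨e, g, θ, hθ0, hθ1, he, hg2, hg0, hge⟩ := exists_data hZ
  obtain ⟨A, B, hAB, hBA⟩ : ∃ (A : X →L[ℝ] Z) (B : Z →L[ℝ] X), (∀ z, A (B z) = z) ∧
      ∀ x, B (A x) = x := ⟨Φ, Φ.symm, Φ.apply_symm_apply, Φ.symm_apply_apply⟩
  refine core (fun n => B (e n)) (fun n => (g n).comp A) ‖B‖ θ hθ0 hθ1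
    (fun j F hF => ?_) (fun x => hg0 (A x)) (hge.congr fun n => ?_)
    (fun s => ‖s.comp B‖) (‖A‖ + 1) (by positivity) (fun s => ?_) (by simp) fun η hη => ?_
  · rw [← map_sum]
    exact B.le_of_opNorm_le_of_le le_rfl (he j _ hF)
  · rw [ContinuousLinearMap.comp_apply, hAB]
  · have e1 : s = (s.comp B).comp A := by ext x; simp [hBA]
    have := ContinuousLinearMap.opNorm_comp_le (s.comp B) A
    rw [← e1] at this
    nlinarith [norm_nonneg (s.comp B)]
  · obtain ⟨R, hR, h⟩ := growth hg2 hg0 η hη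
    refine ⟨R, hR, fun s => ?_⟩
    filter_upwards [h (s.comp B)] with n hn
    have : (s + (g n).comp A).comp B = s.comp B + g n := by ext z; simp [hAB]
    rw [this]; exact hn

/-- The canonical operator from `X` to the continuous functions on the dual ball. -/
def canon (X : Type) [NormedAddCommGroup X] [NormedSpace ℝ X] : X →L[ℝ] C(Ball X, ℝ) :=
  LinearMap.mkContinuous
    { toFun := fun x => ⟨fun s => s.1 x, (WeakDual.eval_continuous x).comp continuous_subtype_val⟩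
      map_add' := fun x y => by ext s; exact map_add s.1 x y
      map_smul' := fun c x => by ext s; exact map_smul s.1 c x } 1 fun x => by
    rw [one_mul]
    exact (ContinuousMap.norm_le _ (norm_nonneg x)).2 fun s => s.abs_le x

end

end Pool.Agent.P.MP_eef3c4_an
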